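import Pool.Agent.Helper29.CY.Goals

/-!
Project CY (MP_eaa1a7_co), packet LA: linear algebra (helper25).
-/

set_option autoImplicit false

open Module

namespace Pool.Agent.Helper25.CY.LA

variable {V : Type} [NormedAddCommGroup V] [InnerProductSpace ℝ V]

theorem fd {P : Submodule ℝ V} {k : ℕ} (h : finrank ℝ P = k) (hk : k ≠ 0) :
    FiniteDimensional ℝ P := by
  refine FiniteDimensional.of_finrank_pos ?_
  omega

theorem sup_inf {W P Q : Submodule ℝ V} (hW : finrank ℝ W = 3) (hP : P ≤ W) (hQ : Q ≤ W) :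
    finrank ℝ ↥(P ⊔ Q) + finrank ℝ ↥(P ⊓ Q) = finrank ℝ P + finrank ℝ Q ∧
      finrank ℝ ↥(P ⊔ Q) ≤ 3 := by
  haveI := fd hW (by norm_num)
  haveI : FiniteDimensional ℝ P := Submodule.finiteDimensional_of_le hP
  haveI : FiniteDimensional ℝ Q := Submodule.finiteDimensional_of_le hQ
  refine ⟨Submodule.finrank_sup_add_finrank_inf_eq P Q, ?_⟩
  rw [← hW]
  exact Submodule.finrank_mono (sup_le hP hQ)

theorem unit_of_pos {P : Submodule ℝ V} (h : 1 ≤ finrank ℝ P) : ∃ q ∈ P, ‖q‖ = 1 := by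
  haveI : Nontrivial P := Module.nontrivial_of_finrank_pos (R := ℝ) h
  obtain ⟨x, hx⟩ := exists_ne (0 : P)
  have hx0 : (x : V) ≠ 0 := fun h0 => hx (Subtype.ext h0)
  refine ⟨(‖(x : V)‖⁻¹ : ℝ) • (x : V), P.smul_mem _ x.2, ?_⟩
  rw [norm_smul, norm_inv, norm_norm, inv_mul_cancel₀ (norm_ne_zero_iff.mpr hx0)]

theorem p1 (W P Q : Submodule ℝ V) (hW : finrank ℝ W = 3) (hP : P ≤ W) (hQ : Q ≤ W)
    (h1 : 2 ≤ finrank ℝ P) (h2 : 2 ≤ finrank ℝ Q) : ∃ q ∈ P ⊓ Q, ‖q‖ = 1 := by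
  obtain ⟨h3, h4⟩ := sup_inf hW hP hQ
  exact unit_of_pos (by omega)

theorem p2 (P Q : Submodule ℝ V) (hP : finrank ℝ P = 3) (hQ : finrank ℝ Q = 3) (hne : P ≠ Q) :
    finrank ℝ ↥(P ⊓ Q) ≤ 2 := by
  haveI := fd hP (by norm_num)
  haveI := fd hQ (by norm_num)
  by_contra hc
  have h1 : P ⊓ Q = P := Submodule.eq_of_le_of_finrank_le inf_le_left (by omega)
  have h2 : P ⊓ Q = Q := Submodule.eq_of_le_of_finrank_le inf_le_right (by omega)
  exact hne (h1.symm.trans h2)

theorem p3 (P : Submodule ℝ V) (e : V) (hP : finrank ℝ P = 2) (he : e ∈ P) (hn : ‖e‖ = 1) :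
    ∃ y ∈ P, ‖y‖ = 1 ∧ inner ℝ e y = 0 ∧ P ≤ Submodule.span ℝ {e, y} := by
  haveI := fd hP (by norm_num)
  have hle : Submodule.span ℝ {e} ≤ P := by
    rw [Submodule.span_singleton_le_iff_mem]; exact he
  have h1 : finrank ℝ (Submodule.span ℝ ({e} : Set V)) ≤ 1 := by
    simpa using finrank_span_le_card (R := ℝ) ({e} : Set V)
  obtain ⟨z, hz, hze⟩ : ∃ z ∈ P, z ∉ Submodule.span ℝ ({e} : Set V) := by
    by_contra hc
    push Not at hc
    have : P = Submodule.span ℝ {e} := le_antisymm hc hle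
    rw [this] at hP
    omega
  have hee : inner ℝ e e = (1 : ℝ) := by
    rw [real_inner_self_eq_norm_sq, hn]; norm_num
  set w : V := z - (inner ℝ e z : ℝ) • e with hw
  have hw0 : w ≠ 0 := by
    intro h0
    refine hze (Submodule.mem_span_singleton.mpr ⟨inner ℝ e z, ?_⟩)
    exact (sub_eq_zero.mp (hw ▸ h0)).symm
  have hwP : w ∈ P := P.sub_mem hz (P.smul_mem _ he)
  have hwe : inner ℝ e w = (0 : ℝ) := by
    rw [hw, inner_sub_right, inner_smul_right, hee]
    ring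
  refine ⟨(‖w‖⁻¹ : ℝ) • w, P.smul_mem _ hwP, ?_, ?_, ?_⟩
  · rw [norm_smul, norm_inv, norm_norm, inv_mul_cancel₀ (norm_ne_zero_iff.mpr hw0)]
  · rw [inner_smul_right, hwe, mul_zero]
  · set y : V := (‖w‖⁻¹ : ℝ) • w with hy
    have hyn : ‖y‖ = 1 := by
      rw [hy, norm_smul, norm_inv, norm_norm, inv_mul_cancel₀ (norm_ne_zero_iff.mpr hw0)]
    have hey : inner ℝ e y = (0 : ℝ) := by rw [hy, inner_smul_right, hwe, mul_zero]
    have hyP : y ∈ P := P.smul_mem _ hwP
    have hyy : inner ℝ y y = (1 : ℝ) := by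
      rw [real_inner_self_eq_norm_sq, hyn]; norm_num
    have hli : LinearIndependent ℝ ![e, y] := by
      rw [LinearIndependent.pair_iff]
      intro s t hst
      have h3 := congrArg (fun v => inner ℝ e v) hst
      have h4 := congrArg (fun v => inner ℝ y v) hst
      have hye : inner ℝ y e = (0 : ℝ) := by rw [real_inner_comm]; exact hey
      simp only [inner_add_right, inner_smul_right, hee, hey, hye, hyy, inner_zero_right] at h3 h4
      constructor <;> linarith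
    have hspan : Submodule.span ℝ (Set.range ![e, y]) ≤ P := by
      rw [Submodule.span_le]
      rintro _ ⟨i, rfl⟩
      fin_cases i
      · exact he
      · exact hyP
    have heq : Submodule.span ℝ (Set.range ![e, y]) = P := by
      refine Submodule.eq_of_le_of_finrank_le hspan ?_
      rw [finrank_span_eq_card hli, hP]
      simp
    rw [← heq, Matrix.range_cons, Matrix.range_cons, Matrix.range_empty, Set.union_empty]
    refine Submodule.span_mono ?_
    intro v hv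
    simp only [Set.mem_union, Set.mem_singleton_iff, Set.mem_insert_iff] at hv ⊢
    tauto

theorem p4 (W P Q : Submodule ℝ V) (hW : finrank ℝ W = 3) (hP : P ≤ W) (hQ : Q ≤ W)
    (h1 : 2 ≤ finrank ℝ P) (h2 : 2 ≤ finrank ℝ Q) (h3 : finrank ℝ ↥(P ⊓ Q) ≤ 1) :
    W ≤ P ⊔ Q := by
  obtain ⟨h4, h5⟩ := sup_inf hW hP hQ
  haveI := fd hW (by norm_num)
  exact (Submodule.eq_of_le_of_finrank_le (sup_le hP hQ) (by omega)).ge

theorem t : Pool.Agent.Helper29.CY.S_LA :=
  ⟨fun V _ _ W P Q => p1 W P Q, fun V _ _ P Q => p2 P Q, fun V _ _ P e => p3 P e,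
    fun V _ _ W P Q => p4 W P Q⟩

end Pool.Agent.Helper25.CY.LA
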